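import Mathlib

namespace Pool.Agent.Results.MP_c1f45e_al.Neg

open MvPolynomial

/-- Any two disjoint edges are joined by an edge. -/
def GapFree {V : Type} (G : SimpleGraph V) : Prop :=
  ∀ a b c d, G.Adj a b → G.Adj c d → a ≠ c → a ≠ d → b ≠ c → b ≠ d →
    G.Adj a c ∨ G.Adj a d ∨ G.Adj b c ∨ G.Adj b d

/-- The `t`-connected ideal. -/
noncomputable def conn (K : Type) [Field K] {V : Type} (G : SimpleGraph V) (t : ℕ) :
    Ideal (MvPolynomial V K) :=
  Ideal.span {f | ∃ S : Finset V, S.card = t ∧ (G.induce (S : Set V)).Connected ∧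
    f = ∏ v ∈ S, X v}

def IsMon {K V : Type} [Field K] (f : MvPolynomial V K) : Prop := ∃ d, f = monomial d 1

/-- The minimal monomial generators: divisibility-minimal monomials of the ideal. -/
def MinGen {K V : Type} [Field K] (I : Ideal (MvPolynomial V K)) : Set (MvPolynomial V K) :=
  {f | IsMon f ∧ f ∈ I ∧ ∀ g, IsMon g → g ∈ I → g ∣ f → g = f}

def LinQuot {K V : Type} [Field K] (I : Ideal (MvPolynomial V K)) : Prop :=
  ∃ (r : ℕ) (m : Fin r → MvPolynomial V K), Function.Injective m ∧ Set.range m = MinGen I ∧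
    ∀ i : Fin r, 0 < i.val → ∃ A : Set V,
      (Ideal.span (m '' {j | j < i})).colon {m i} = Ideal.span (X '' A)

abbrev V := Fin 12

def mask : V → ℕ := ![4032, 2968, 3888, 3682, 3270, 2508, 825, 1587, 1127, 207, 413, 63]

def adj (a b : V) : Bool := (mask a).testBit b.val

def Gr : SimpleGraph V where
  Adj a b := adj a b = true
  symm := ⟨by decide +kernel⟩
  loopless := ⟨by decide +kernel⟩

instance : DecidableRel Gr.Adj := fun a b => inferInstanceAs (Decidable (adj a b = true))

def C3 (S : Finset V) : Prop := S.card = 3 ∧ (Gr.induce (S : Set V)).Connected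

def Ind (S : Finset V) : Prop := ∀ u ∈ S, ∀ v ∈ S, ¬ Gr.Adj u v

instance : DecidablePred Ind := fun S =>
  inferInstanceAs (Decidable (∀ u ∈ S, ∀ v ∈ S, ¬ Gr.Adj u v))

theorem not_ind {S : Finset V} (h : C3 S) : ¬ Ind S := by
  intro hi
  obtain ⟨x, hx, y, hy, hxy⟩ := Finset.one_lt_card.1 (show 1 < S.card by rw [h.1]; decide)
  obtain ⟨p⟩ := h.2.preconnected ⟨x, hx⟩ ⟨y, hy⟩
  cases hp : p.length with
  | zero => exact hxy (congrArg Subtype.val (SimpleGraph.Walk.eq_of_length_eq_zero hp))
  | succ n =>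
    have := p.adj_getVert_succ (i := 0) (by omega)
    exact hi _ (p.getVert 0).2 _ (p.getVert 1).2 this

theorem star (S : Finset V) (y : V) (hy : y ∈ S) (h : ∀ w ∈ S, w = y ∨ Gr.Adj y w) :
    (Gr.induce (S : Set V)).Connected := by
  rw [SimpleGraph.connected_iff_exists_forall_reachable]
  refine ⟨⟨y, hy⟩, fun w => ?_⟩
  rcases h w.1 w.2 with h1 | h1
  · have : w = ⟨y, hy⟩ := Subtype.ext h1
    rw [this]
  · exact SimpleGraph.Adj.reachable h1

def D (φ : Finset V → ZMod 2) (Q : Finset V) : ZMod 2 := ∑ x ∈ Q, φ (Q.erase x)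

theorem dd (φ : Finset V → ZMod 2) (R : Finset V) : ∑ x ∈ R, D φ (R.erase x) = 0 := by
  unfold D
  rw [Finset.sum_sigma']
  refine Finset.sum_involution (fun p _ => ⟨p.2, p.1⟩) ?_ ?_ ?_ ?_
  · intro p _
    simp only [Finset.erase_right_comm (s := R) (a := p.2)]
    exact CharTwo.add_self_eq_zero _
  · intro p hp _ h
    simp only [Finset.mem_sigma, Finset.mem_erase] at hp
    exact hp.2.1 (congrArg Sigma.fst h)
  · intro p hp
    simp only [Finset.mem_sigma, Finset.mem_erase] at hp ⊢
    exact ⟨hp.2.2, fun h => hp.2.1 h.symm, hp.1⟩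
  · intro p _
    rfl

def φ0 (S : Finset V) : ZMod 2 :=
  if 0 ∈ S ∧ ((1 ∈ S ∧ (2 ∈ S ∨ 3 ∈ S ∨ 6 ∈ S)) ∨ (2 ∈ S ∧ 5 ∈ S)) then 1 else 0

theorem D4 (φ : Finset V → ZMod 2) (o a b c : V) (h1 : o ≠ a) (h2 : o ≠ b) (h3 : o ≠ c)
    (h4 : a ≠ b) (h5 : a ≠ c) (h6 : b ≠ c) :
    ({o, a, b, c} : Finset V).card = 4 ∧
      D φ {o, a, b, c} = φ {a, b, c} + φ {o, b, c} + φ {o, a, c} + φ {o, a, b} := by
  have e0 : ({o, a, b, c} : Finset V).erase o = {a, b, c} := by
    ext x; simp only [Finset.mem_erase, Finset.mem_insert, Finset.mem_singleton]; grind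
  have e1 : ({o, a, b, c} : Finset V).erase a = {o, b, c} := by
    ext x; simp only [Finset.mem_erase, Finset.mem_insert, Finset.mem_singleton]; grind
  have e2 : ({o, a, b, c} : Finset V).erase b = {o, a, c} := by
    ext x; simp only [Finset.mem_erase, Finset.mem_insert, Finset.mem_singleton]; grind
  have e3 : ({o, a, b, c} : Finset V).erase c = {o, a, b} := by
    ext x; simp only [Finset.mem_erase, Finset.mem_insert, Finset.mem_singleton]; grind
  constructor
  · rw [Finset.card_insert_of_notMem (by simp [h1, h2, h3]),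
      Finset.card_insert_of_notMem (by simp [h4, h5]), Finset.card_pair h6]
  · unfold D
    rw [Finset.sum_insert (by simp [h1, h2, h3]), Finset.sum_insert (by simp [h4, h5]),
      Finset.sum_pair h6, e0, e1, e2, e3]
    ring

def p3 (x y w : V) : Bool := (adj x y && adj x w) || (adj y x && adj y w) || (adj w x && adj w y)

def mm (v x y w : V) : Prop := v = x ∨ v = y ∨ v = w

instance (v x y w : V) : Decidable (mm v x y w) :=
  inferInstanceAs (Decidable (v = x ∨ v = y ∨ v = w))

def f0 (x y w : V) : ZMod 2 :=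
  if mm 0 x y w ∧ ((mm 1 x y w ∧ (mm 2 x y w ∨ mm 3 x y w ∨ mm 6 x y w)) ∨
    (mm 2 x y w ∧ mm 5 x y w)) then 1 else 0

theorem f0_eq (x y w : V) : φ0 {x, y, w} = f0 x y w := by
  unfold φ0 f0
  exact if_congr (by simp only [mm, Finset.mem_insert, Finset.mem_singleton]) rfl rfl

theorem chk : ∀ a b : V, a ≠ b → ∀ c : V, a ≠ c → b ≠ c → ∀ d : V, a ≠ d → b ≠ d → c ≠ d →
    (p3 b c d || p3 a c d || p3 a b d || p3 a b c) = true ∨
      f0 b c d + f0 a c d + f0 a b d + f0 a b c = 0 := by
  decide +kernel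

theorem p3_C3 (x y w : V) (h1 : x ≠ y) (h2 : x ≠ w) (h3 : y ≠ w) (h : p3 x y w = true) :
    C3 {x, y, w} := by
  refine ⟨Finset.card_eq_three.2 ⟨x, y, w, h1, h2, h3, rfl⟩, ?_⟩
  simp only [p3, Bool.or_eq_true, Bool.and_eq_true] at h
  rcases h with (h | h) | h
  · refine star _ x (by simp) (fun v hv => ?_)
    simp only [Finset.mem_insert, Finset.mem_singleton] at hv
    rcases hv with rfl | rfl | rfl
    exacts [Or.inl rfl, Or.inr h.1, Or.inr h.2]
  · refine star _ y (by simp) (fun v hv => ?_)
    simp only [Finset.mem_insert, Finset.mem_singleton] at hv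
    rcases hv with rfl | rfl | rfl
    exacts [Or.inr h.1, Or.inl rfl, Or.inr h.2]
  · refine star _ w (by simp) (fun v hv => ?_)
    simp only [Finset.mem_insert, Finset.mem_singleton] at hv
    rcases hv with rfl | rfl | rfl
    exacts [Or.inr h.1, Or.inr h.2, Or.inl rfl]

theorem base (Q : Finset V) (hQ : Q.card = 4) : (∃ S, S ⊆ Q ∧ C3 S) ∨ D φ0 Q = 0 := by
  obtain ⟨a, T, ha, rfl, hT⟩ := Finset.card_eq_succ.1 hQ
  obtain ⟨b, c, d, h1, h2, h3, rfl⟩ := Finset.card_eq_three.1 hT
  simp only [Finset.mem_insert, Finset.mem_singleton, not_or] at ha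
  rcases chk a b ha.1 c ha.2.1 h1 d ha.2.2 h2 h3 with h | h
  · left
    simp only [Bool.or_eq_true] at h
    rcases h with ((h | h) | h) | h
    · exact ⟨_, by intro x; simp only [Finset.mem_insert, Finset.mem_singleton]; tauto,
        p3_C3 _ _ _ h1 h2 h3 h⟩
    · exact ⟨_, by intro x; simp only [Finset.mem_insert, Finset.mem_singleton]; tauto,
        p3_C3 _ _ _ ha.2.1 ha.2.2 h3 h⟩
    · exact ⟨_, by intro x; simp only [Finset.mem_insert, Finset.mem_singleton]; tauto,
        p3_C3 _ _ _ ha.1 ha.2.2 h2 h⟩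
    · exact ⟨_, by intro x; simp only [Finset.mem_insert, Finset.mem_singleton]; tauto,
        p3_C3 _ _ _ ha.1 ha.2.1 h1 h⟩
  · right
    rw [(D4 φ0 a b c d ha.1 ha.2.1 ha.2.2 h1 h2 h3).2, f0_eq, f0_eq, f0_eq, f0_eq]
    exact h

theorem fin0 (φ : Finset V → ZMod 2) (h0 : ∀ S, Ind S → φ S = φ0 S)
    (h : ∀ Q : Finset V, Q.card = 4 → D φ Q = 0) : False := by
  have h4 : ∀ a b c : V, 0 ≠ a → 0 ≠ b → 0 ≠ c → a ≠ b → a ≠ c → b ≠ c →
      φ {a, b, c} + φ {0, b, c} + φ {0, a, c} + φ {0, a, b} = 0 := by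
    intro a b c h1 h2 h3 h4 h5 h6
    have := D4 φ 0 a b c h1 h2 h3 h4 h5 h6
    rw [← this.2]
    exact h _ this.1
  have k0 : φ {0, 1, 2} = 1 := (h0 _ (by decide)).trans (by decide)
  have k1 : φ {0, 1, 5} = 0 := (h0 _ (by decide)).trans (by decide)
  have k2 : φ {0, 2, 3} = 0 := (h0 _ (by decide)).trans (by decide)
  have k3 : φ {0, 3, 4} = 0 := (h0 _ (by decide)).trans (by decide)
  have k4 : φ {0, 4, 5} = 0 := (h0 _ (by decide)).trans (by decide)
  have k5 : φ {1, 2, 6} = 0 := (h0 _ (by decide)).trans (by decide)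
  have k6 : φ {1, 5, 10} = 0 := (h0 _ (by decide)).trans (by decide)
  have k7 : φ {1, 6, 10} = 0 := (h0 _ (by decide)).trans (by decide)
  have k8 : φ {2, 3, 7} = 0 := (h0 _ (by decide)).trans (by decide)
  have k9 : φ {2, 6, 7} = 0 := (h0 _ (by decide)).trans (by decide)
  have k10 : φ {3, 4, 8} = 0 := (h0 _ (by decide)).trans (by decide)
  have k11 : φ {3, 7, 8} = 0 := (h0 _ (by decide)).trans (by decide)
  have k12 : φ {4, 5, 9} = 0 := (h0 _ (by decide)).trans (by decide)
  have k13 : φ {4, 8, 9} = 0 := (h0 _ (by decide)).trans (by decide)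
  have k14 : φ {5, 9, 10} = 0 := (h0 _ (by decide)).trans (by decide)
  have k15 : φ {6, 7, 11} = 0 := (h0 _ (by decide)).trans (by decide)
  have k16 : φ {6, 10, 11} = 0 := (h0 _ (by decide)).trans (by decide)
  have k17 : φ {7, 8, 11} = 0 := (h0 _ (by decide)).trans (by decide)
  have k18 : φ {8, 9, 11} = 0 := (h0 _ (by decide)).trans (by decide)
  have k19 : φ {9, 10, 11} = 0 := (h0 _ (by decide)).trans (by decide)
  have c5 := h4 1 2 6 (by decide) (by decide) (by decide) (by decide) (by decide) (by decide)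
  have c6 := h4 1 5 10 (by decide) (by decide) (by decide) (by decide) (by decide) (by decide)
  have c7 := h4 1 6 10 (by decide) (by decide) (by decide) (by decide) (by decide) (by decide)
  have c8 := h4 2 3 7 (by decide) (by decide) (by decide) (by decide) (by decide) (by decide)
  have c9 := h4 2 6 7 (by decide) (by decide) (by decide) (by decide) (by decide) (by decide)
  have c10 := h4 3 4 8 (by decide) (by decide) (by decide) (by decide) (by decide) (by decide)
  have c11 := h4 3 7 8 (by decide) (by decide) (by decide) (by decide) (by decide) (by decide)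
  have c12 := h4 4 5 9 (by decide) (by decide) (by decide) (by decide) (by decide) (by decide)
  have c13 := h4 4 8 9 (by decide) (by decide) (by decide) (by decide) (by decide) (by decide)
  have c14 := h4 5 9 10 (by decide) (by decide) (by decide) (by decide) (by decide) (by decide)
  have c15 := h4 6 7 11 (by decide) (by decide) (by decide) (by decide) (by decide) (by decide)
  have c16 := h4 6 10 11 (by decide) (by decide) (by decide) (by decide) (by decide) (by decide)
  have c17 := h4 7 8 11 (by decide) (by decide) (by decide) (by decide) (by decide) (by decide)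
  have c18 := h4 8 9 11 (by decide) (by decide) (by decide) (by decide) (by decide) (by decide)
  have c19 := h4 9 10 11 (by decide) (by decide) (by decide) (by decide) (by decide) (by decide)
  have two : (2 : ZMod 2) = 0 := rfl
  have bad : (1 : ZMod 2) = 0 := by
    linear_combination c5 + c6 + c7 + c8 + c9 + c10 + c11 + c12 + c13 + c14 + c15 + c16 + c17 + c18 + c19
      - k0 - k1 - k2 - k3 - k4 - k5 - k6 - k7 - k8 - k9 - k10 - k11 - k12 - k13 - k14 - k15 - k16 - k17 - k18 - k19
      - (φ {0, 1, 6} + φ {0, 1, 10} + φ {0, 2, 6} + φ {0, 2, 7}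
      + φ {0, 3, 7} + φ {0, 3, 8} + φ {0, 4, 8} + φ {0, 4, 9}
      + φ {0, 5, 9} + φ {0, 5, 10} + φ {0, 6, 7} + φ {0, 6, 10} + φ {0, 6, 11} + φ {0, 7, 8} + φ {0, 7, 11}
      + φ {0, 8, 9} + φ {0, 8, 11} + φ {0, 9, 10} + φ {0, 9, 11} + φ {0, 10, 11}) * two
  exact absurd bad (by decide)

theorem core (r : ℕ) (m : Fin r → Finset V) (h1 : ∀ i, C3 (m i))
    (h2 : ∀ S, C3 S → ∃ i, m i = S)
    (h3 : ∀ (i : Fin r) (u u' : V), (∀ j, j < i → ¬ m j ⊆ insert u (m i)) →
      (∀ j, j < i → ¬ m j ⊆ insert u' (m i)) → ∀ j, j < i → ¬ m j ⊆ insert u (insert u' (m i))) :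
    False := by
  have key : ∀ n k : ℕ, k + n = r → ∃ φ : Finset V → ZMod 2, (∀ S, Ind S → φ S = φ0 S) ∧
      ∀ Q : Finset V, Q.card = 4 → (∀ j : Fin r, j.val < k → ¬ m j ⊆ Q) → D φ Q = 0 := by
    intro n
    induction n with
    | zero =>
      intro k hk
      refine ⟨φ0, fun _ _ => rfl, fun Q hQ hj => ?_⟩
      rcases base Q hQ with ⟨S, hS, hC⟩ | h
      · exfalso
        obtain ⟨i, hi⟩ := h2 S hC
        exact hj i (by omega) (hi ▸ hS)
      · exact h
    | succ n ih =>
      intro k hk
      obtain ⟨φ, hφ, hc⟩ := ih (k + 1) (by omega)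
      let i : Fin r := ⟨k, by omega⟩
      have hS := (h1 i).1
      have old : ∀ Q : Finset V, Q.card = 4 → (∀ j : Fin r, j.val < k → ¬ m j ⊆ Q) →
          ¬ m i ⊆ Q → D φ Q = 0 := by
        intro Q hQ hj hi
        refine hc Q hQ (fun j hjk => ?_)
        by_cases hjk' : j.val < k
        · exact hj j hjk'
        · have : j = i := Fin.ext (by simp only [i]; omega)
          rw [this]
          exact hi
      have form : ∀ Q : Finset V, Q.card = 4 → m i ⊆ Q → ∃ u, u ∉ m i ∧ Q = insert u (m i) := by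
        intro Q hQ hi
        obtain ⟨u, hu, hu'⟩ := Finset.exists_eq_insert_iff.2 ⟨hi, by rw [hS, hQ]⟩
        exact ⟨u, hu, hu'.symm⟩
      by_cases hu : ∃ u, u ∉ m i ∧ ∀ j : Fin r, j.val < k → ¬ m j ⊆ insert u (m i)
      · obtain ⟨u0, hu0, hj0⟩ := hu
        refine ⟨fun S => φ S + if S = m i then D φ (insert u0 (m i)) else 0, ?_, ?_⟩
        · intro S hI
          have : S ≠ m i := fun h => not_ind (h1 i) (h ▸ hI)
          simp only [if_neg this, add_zero, hφ S hI]
        · intro Q hQ hj
          unfold D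
          rw [Finset.sum_add_distrib]
          by_cases hi : m i ⊆ Q
          · obtain ⟨u, hu, rfl⟩ := form Q hQ hi
            rw [Finset.sum_eq_single_of_mem (s := insert u (m i)) u (Finset.mem_insert_self _ _)
              (f := fun x => if (insert u (m i)).erase x = m i then
                ∑ x ∈ insert u0 (m i), φ ((insert u0 (m i)).erase x) else 0)]
            · rw [if_pos (Finset.erase_insert hu)]
              show D φ (insert u (m i)) + D φ (insert u0 (m i)) = 0
              by_cases huu : u = u0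
              · rw [huu]
                exact CharTwo.add_self_eq_zero _
              · have hd := dd φ (insert u (insert u0 (m i)))
                have hn : u ∉ insert u0 (m i) := by simp [huu, hu]
                rw [Finset.sum_insert hn, Finset.sum_insert hu0, Finset.erase_insert hn,
                  Finset.insert_comm u u0, Finset.erase_insert (by simp [Ne.symm huu, hu0]),
                  Finset.sum_eq_zero, add_zero, add_comm] at hd
                · exact hd
                · intro x hx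
                  refine old _ ?_ (fun j hjk hs => ?_) (fun hs => ?_)
                  · rw [Finset.card_erase_of_mem (by simp [hx]),
                      Finset.card_insert_of_notMem (by simp [Ne.symm huu, hu0]), hQ]
                  · exact h3 i u0 u hj0 hj j hjk (hs.trans (Finset.erase_subset _ _))
                  · exact (Finset.mem_erase.1 (hs hx)).1 rfl
            · intro x hx hxu
              rw [if_neg]
              intro he
              apply hu
              rw [← he]
              exact Finset.mem_erase.2 ⟨hxu.symm, Finset.mem_insert_self _ _⟩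
          · rw [Finset.sum_eq_zero (s := Q) (f := fun x => if Q.erase x = m i then
                ∑ x ∈ insert u0 (m i), φ ((insert u0 (m i)).erase x) else 0), add_zero]
            · exact old Q hQ hj hi
            · intro x _
              rw [if_neg]
              intro he
              exact hi (he ▸ Finset.erase_subset _ _)
      · refine ⟨φ, hφ, fun Q hQ hj => old Q hQ hj (fun hi => ?_)⟩
        obtain ⟨u, hu1, rfl⟩ := form Q hQ hi
        exact hu ⟨u, hu1, hj⟩
  obtain ⟨φ, hφ, hc⟩ := key r 0 (by omega)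
  exact fin0 φ hφ (fun Q hQ => hc Q hQ (fun j hj => absurd hj (by omega)))

section
variable {K : Type} [Field K]

noncomputable def mono (K : Type) [Field K] (S : Finset V) : MvPolynomial V K := ∏ v ∈ S, X v

noncomputable def ev (K : Type) [Field K] (T : Finset V) : MvPolynomial V K →+* K :=
  eval (fun v => if v ∈ T then 1 else 0)

theorem ev_X (T : Finset V) (v : V) : ev K T (X v) = if v ∈ T then 1 else 0 := eval_X _

theorem ev_mono (T S : Finset V) : ev K T (mono K S) = if S ⊆ T then 1 else 0 := by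
  unfold mono
  rw [map_prod]
  simp only [ev_X]
  rw [Finset.prod_boole]
  rfl

theorem span_ev (T : Finset V) (B : Set (MvPolynomial V K)) (f : MvPolynomial V K)
    (hf : f ∈ Ideal.span B) (h1 : ev K T f = 1) : ∃ g ∈ B, ev K T g ≠ 0 := by
  by_contra hc
  push Not at hc
  have : Ideal.span B ≤ RingHom.ker (ev K T) := Ideal.span_le.2 (fun g hg => hc g hg)
  have h0 : ev K T f = 0 := this hf
  rw [h1] at h0
  exact one_ne_zero h0

theorem mono_isMon (S : Finset V) : IsMon (mono K S) := by
  unfold mono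
  induction S using Finset.induction_on with
  | empty => exact ⟨0, by simp⟩
  | insert a S ha ih =>
    obtain ⟨d, hd⟩ := ih
    refine ⟨Finsupp.single a 1 + d, ?_⟩
    rw [Finset.prod_insert ha, hd, X, monomial_mul, one_mul]

theorem below {g : MvPolynomial V K} (hg : IsMon g) (hI : g ∈ conn K Gr 3) :
    ∃ S, C3 S ∧ mono K S ∣ g := by
  obtain ⟨d, rfl⟩ := hg
  have h1 : ev K d.support (monomial d 1) = 1 := by
    unfold ev
    rw [eval_monomial, one_mul]
    exact Finset.prod_eq_one (fun v hv => by simp only [if_pos hv, one_pow])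
  obtain ⟨g, ⟨S, hS, hC, rfl⟩, h2⟩ := span_ev _ _ _ hI h1
  refine ⟨S, ⟨hS, hC⟩, ?_⟩
  have h3 : S ⊆ d.support := by
    by_contra h
    exact h2 ((ev_mono _ S).trans (if_neg h))
  rw [monomial_eq, C_1, one_mul]
  refine (Finset.prod_dvd_prod_of_subset _ _ _ h3).trans ?_
  exact Finset.prod_dvd_prod_of_dvd _ _
    (fun v hv => dvd_pow_self _ (Finsupp.mem_support_iff.1 hv))

theorem mono_mem {S : Finset V} (h : C3 S) : mono K S ∈ conn K Gr 3 :=
  Ideal.subset_span ⟨S, h.1, h.2, rfl⟩

theorem sub_of_dvd {S T : Finset V} (h : mono K S ∣ mono K T) : S ⊆ T := by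
  by_contra hc
  have := map_dvd (ev K T) h
  rw [ev_mono, ev_mono, if_neg hc, if_pos (Finset.Subset.refl _)] at this
  exact one_ne_zero (zero_dvd_iff.1 this)

theorem mingen (f : MvPolynomial V K) : f ∈ MinGen (conn K Gr 3) ↔ ∃ S, C3 S ∧ mono K S = f := by
  constructor
  · rintro ⟨h1, h2, h3⟩
    obtain ⟨S, hS, hd⟩ := below h1 h2
    exact ⟨S, hS, h3 _ (mono_isMon S) (mono_mem hS) hd⟩
  · rintro ⟨S, hS, rfl⟩
    refine ⟨mono_isMon S, mono_mem hS, fun g hg hI hd => ?_⟩
    obtain ⟨T, hT, hd'⟩ := below hg hI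
    have : T = S := Finset.eq_of_subset_of_card_le (sub_of_dvd (hd'.trans hd))
      (by rw [hS.1, hT.1])
    rw [this] at hd'
    obtain ⟨d, rfl⟩ := hg
    obtain ⟨e, he⟩ := mono_isMon (K := K) S
    rw [he] at hd hd' ⊢
    rw [monomial_dvd_monomial] at hd hd'
    rw [le_antisymm (hd.1.resolve_left one_ne_zero) (hd'.1.resolve_left one_ne_zero)]

end

theorem result (K : Type) [Field K] : ∃ (n : ℕ) (G : SimpleGraph (Fin n)) (t : ℕ),
    3 ≤ t ∧ GapFree G ∧ ¬ LinQuot (conn K G t) := by
  refine ⟨12, Gr, 3, le_rfl, by unfold GapFree; decide +kernel, ?_⟩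
  rintro ⟨r, m, -, hr, hq⟩
  have h1 : ∀ i, ∃ S, C3 S ∧ mono K S = m i := fun i =>
    (mingen _).1 (hr ▸ Set.mem_range_self i)
  choose s hs hsm using h1
  refine core r s hs (fun S hS => ?_) ?_
  · have : mono K S ∈ Set.range m := hr ▸ (mingen _).2 ⟨S, hS, rfl⟩
    obtain ⟨i, hi⟩ := this
    rw [← hsm] at hi
    exact ⟨i, Finset.Subset.antisymm (sub_of_dvd (K := K) (hi ▸ dvd_rfl))
      (sub_of_dvd (K := K) (hi ▸ dvd_rfl))⟩
  · intro i u u' hu hu' j hj hsub
    obtain ⟨A, hA⟩ := hq i (by have : j.val < i.val := hj; omega)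
    have one : ∀ w : V, w ∈ A → ¬ ∀ j, j < i → ¬ s j ⊆ insert w (s i) := by
      intro w hw hc
      have h2 : (X w : MvPolynomial V K) ∈ Ideal.span (X '' A) := Ideal.subset_span ⟨w, hw, rfl⟩
      rw [← hA, Submodule.mem_colon_singleton, smul_eq_mul] at h2
      obtain ⟨g, ⟨j, hj, rfl⟩, hg⟩ := span_ev (insert w (s i)) _ _ h2 (by
        rw [map_mul, ev_X, ← hsm, ev_mono, if_pos (Finset.mem_insert_self _ _),
          if_pos (Finset.subset_insert _ _), one_mul])
      rw [← hsm, ev_mono, if_neg (hc j hj)] at hg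
      exact hg rfl
    have h2 : (X u * X u' : MvPolynomial V K) ∈ Ideal.span (X '' A) := by
      rw [← hA, Submodule.mem_colon_singleton, smul_eq_mul]
      have hd : m j ∣ X u * X u' * m i := by
        rw [← hsm, ← hsm, mul_assoc]
        refine (Finset.prod_dvd_prod_of_subset _ _ _ hsub).trans ?_
        have ins : ∀ (w : V) (T : Finset V), mono K (insert w T) ∣ X w * mono K T := by
          intro w T
          by_cases hw : w ∈ T
          · rw [Finset.insert_eq_of_mem hw]
            exact dvd_mul_left _ _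
          · unfold mono
            rw [Finset.prod_insert hw]
        exact (ins u _).trans (mul_dvd_mul_left _ (ins u' _))
      exact Ideal.mem_of_dvd _ hd (Ideal.subset_span ⟨j, hj, rfl⟩)
    obtain ⟨g, ⟨w, hw, rfl⟩, hg⟩ := span_ev {u, u'} _ _ h2 (by
      rw [map_mul, ev_X, ev_X, if_pos (by simp), if_pos (by simp), one_mul])
    rw [ev_X] at hg
    have hw2 : w ∈ ({u, u'} : Finset V) := by
      by_contra h
      exact hg (if_neg h)
    simp only [Finset.mem_insert, Finset.mem_singleton] at hw2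
    rcases hw2 with rfl | rfl
    · exact one _ hw hu
    · exact one _ hw hu'

end Pool.Agent.Results.MP_c1f45e_al.Neg
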